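import Pool.Agent.J4.H13.CC.Defs

/-!
# The absolute value on the algebraic closure of `ℚ_ℓ`, and lattices
-/

set_option autoImplicit false

namespace Pool.Agent.J4.H13.CC

open Pool.Agent.J4.H9.HM

variable {ℓ : ℕ} [Fact ℓ.Prime]

theorem absv_zero : absv (0 : Qlb ℓ) = 0 := norm_zero (E := PadicAlgCl ℓ)

theorem absv_one : absv (1 : Qlb ℓ) = 1 := norm_one (α := PadicAlgCl ℓ)

theorem absv_mul (x y : Qlb ℓ) : absv (x * y) = absv x * absv y :=
  norm_mul (α := PadicAlgCl ℓ) x y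

theorem absv_nonneg (x : Qlb ℓ) : 0 ≤ absv x := norm_nonneg (E := PadicAlgCl ℓ) x

theorem absv_add (x y : Qlb ℓ) : absv (x + y) ≤ max (absv x) (absv y) :=
  PadicAlgCl.isNonarchimedean ℓ x y

theorem absv_eq_zero {x : Qlb ℓ} : absv x = 0 ↔ x = 0 := norm_eq_zero (E := PadicAlgCl ℓ)

theorem absv_pos {x : Qlb ℓ} (h : x ≠ 0) : 0 < absv x :=
  lt_of_le_of_ne (absv_nonneg x) fun h' => h (absv_eq_zero.1 h'.symm)

theorem absv_ell : absv (ℓ : Qlb ℓ) = (ℓ : ℝ)⁻¹ := by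
  have h1 : absv (ℓ : Qlb ℓ) = norm (E := PadicAlgCl ℓ) ((ℓ : ℚ_[ℓ]) : PadicAlgCl ℓ) := by
    rw [map_natCast]
    rfl
  rw [h1, PadicAlgCl.norm_extends, Padic.norm_p]

theorem ell_pos : 0 < absv (ℓ : Qlb ℓ) := by
  rw [absv_ell]
  have := (Fact.out : ℓ.Prime).pos
  positivity

theorem ell_lt_one : absv (ℓ : Qlb ℓ) < 1 := by
  rw [absv_ell]
  have : (1 : ℝ) < ℓ := by exact_mod_cast (Fact.out : ℓ.Prime).one_lt
  exact inv_lt_one_of_one_lt₀ this

theorem ell_ne_zero : (ℓ : Qlb ℓ) ≠ 0 := fun h => by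
  have := ell_pos (ℓ := ℓ)
  rw [h, absv_zero] at this
  exact lt_irrefl _ this

theorem absv_pow (x : Qlb ℓ) (n : ℕ) : absv (x ^ n) = absv x ^ n :=
  norm_pow (α := PadicAlgCl ℓ) x n

theorem absv_sum_le {I : Type*} (s : Finset I) (f : I → Qlb ℓ) (c : ℝ) (hc : 0 ≤ c)
    (h : ∀ i ∈ s, absv (f i) ≤ c) : absv (∑ i ∈ s, f i) ≤ c := by
  classical
  induction s using Finset.induction_on with
  | empty => rw [Finset.sum_empty, absv_zero]; exact hc
  | insert a s ha ih =>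
    rw [Finset.sum_insert ha]
    exact (absv_add _ _).trans (max_le (h a (Finset.mem_insert_self a s))
      (ih fun i hi => h i (Finset.mem_insert_of_mem hi)))

section

variable {Γ : Type} [Group Γ] {R : GRep (Qlb ℓ) Γ} (L : Lattice R)

theorem memPow_iff (n : ℕ) (x : R.W) :
    L.MemPow n x ↔ ∀ i, absv (L.b.repr x i) ≤ absv (ℓ : Qlb ℓ) ^ n := by
  constructor
  · rintro ⟨y, hy, rfl⟩ i
    rw [map_smul, Finsupp.smul_apply, smul_eq_mul, absv_mul, absv_pow]
    calc absv (ℓ : Qlb ℓ) ^ n * absv (L.b.repr y i) ≤ absv (ℓ : Qlb ℓ) ^ n * 1 :=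
          mul_le_mul_of_nonneg_left (hy i) (pow_nonneg (absv_nonneg _) n)
      _ = _ := mul_one _
  · intro h
    have h0 : (ℓ : Qlb ℓ) ^ n ≠ 0 := pow_ne_zero n ell_ne_zero
    refine ⟨((ℓ : Qlb ℓ) ^ n)⁻¹ • x, fun i => ?_, ?_⟩
    · rw [map_smul, Finsupp.smul_apply, smul_eq_mul]
      have h1 : absv ((ℓ : Qlb ℓ) ^ n) * (absv (((ℓ : Qlb ℓ) ^ n)⁻¹ * L.b.repr x i)) =
          absv (L.b.repr x i) := by
        rw [← absv_mul, mul_inv_cancel_left₀ h0]
      have h2 := h i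
      rw [← h1, absv_pow] at h2
      have h3 : 0 < absv (ℓ : Qlb ℓ) ^ n := pow_pos ell_pos n
      exact le_of_mul_le_mul_left (by rw [mul_one]; exact h2) h3
    · rw [smul_smul, mul_inv_cancel₀ h0, one_smul]

/-- a vector in the lattice, from a given one -/
theorem exists_mem (x : R.W) : ∃ c : Qlb ℓ, c ≠ 0 ∧ L.Mem (c • x) := by
  classical
  by_cases hx : x = 0
  · exact ⟨1, one_ne_zero, fun i => by
      rw [hx, smul_zero, map_zero, Finsupp.zero_apply]
      exact (absv_zero (ℓ := ℓ)).le.trans zero_le_one⟩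
  · have hs : (L.b.repr x).support.Nonempty := by
      rw [Finsupp.support_nonempty_iff]
      exact fun h => hx (by simpa using h)
    obtain ⟨j, hj, hmax⟩ := Finset.exists_max_image _ (fun i => absv (L.b.repr x i)) hs
    have hj0 : L.b.repr x j ≠ 0 := Finsupp.mem_support_iff.1 hj
    refine ⟨(L.b.repr x j)⁻¹, inv_ne_zero hj0, fun i => ?_⟩
    show absv _ ≤ 1
    rw [map_smul, Finsupp.smul_apply, smul_eq_mul]
    have h1 : absv (L.b.repr x j) * absv ((L.b.repr x j)⁻¹ * L.b.repr x i) =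
        absv (L.b.repr x i) := by
      rw [← absv_mul, mul_inv_cancel_left₀ hj0]
    have h2 : absv (L.b.repr x i) ≤ absv (L.b.repr x j) := by
      by_cases hi : i ∈ (L.b.repr x).support
      · exact hmax i hi
      · rw [Finsupp.notMem_support_iff.1 hi, absv_zero]
        exact absv_nonneg _
    rw [← h1] at h2
    exact le_of_mul_le_mul_left (by rw [mul_one]; exact h2) (absv_pos hj0)

theorem memPow_sum {I : Type*} (s : Finset I) (n : ℕ) (c : I → Qlb ℓ) (x : I → R.W)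
    (hc : ∀ i ∈ s, IsInt (c i)) (hx : ∀ i ∈ s, L.MemPow n (x i)) :
    L.MemPow n (∑ i ∈ s, c i • x i) := by
  rw [memPow_iff]
  intro j
  rw [map_sum, Finsupp.finsetSum_apply]
  refine absv_sum_le s _ _ (pow_nonneg (absv_nonneg _) n) fun i hi => ?_
  rw [map_smul, Finsupp.smul_apply, smul_eq_mul, absv_mul]
  have h1 := (memPow_iff L n (x i)).1 (hx i hi) j
  calc absv (c i) * absv (L.b.repr (x i) j) ≤ 1 * absv (ℓ : Qlb ℓ) ^ n :=
        mul_le_mul (hc i hi) h1 (absv_nonneg _) zero_le_one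
    _ = _ := one_mul _

theorem mem_iff_memPow (x : R.W) : L.Mem x ↔ L.MemPow 0 x := by
  rw [memPow_iff]
  simp only [pow_zero]
  rfl

end

end Pool.Agent.J4.H13.CC
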