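import Mathlib

/-!
# Modules over the quotient by the annihilator of a semisimple module
-/

set_option autoImplicit false

namespace Pool.Agent.J4.H13.CC

/-- If all elements of `A` which kill the semisimple module `W` kill `V ≠ 0`, then there is a nonzero
homomorphism `V → W` (both modules finite in a suitable sense). -/
theorem exists_hom {A W V : Type*} [Ring A] [AddCommGroup W] [Module A W] [AddCommGroup V]
    [Module A V] [IsSemisimpleModule A W] {m r : ℕ} (w : Fin m → W)
    (hw : ∀ a : A, (∀ i, a • w i = 0) → ∀ x : W, a • x = 0) (v : Fin r → V)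
    (hv : Submodule.span A (Set.range v) = ⊤) (hV : ∃ x : V, x ≠ 0)
    (hann : ∀ a : A, (∀ x : W, a • x = 0) → ∀ y : V, a • y = 0) : ∃ f : V →ₗ[A] W, f ≠ 0 := by
  let Θ : (Fin r → A) →ₗ[A] (Fin r → Fin m → W) :=
    LinearMap.pi fun j => LinearMap.pi fun i =>
      (LinearMap.toSpanSingleton A W (w i)).comp (LinearMap.proj j)
  let Φ : (Fin r → A) →ₗ[A] V := Fintype.linearCombination A v
  have hker : LinearMap.ker Θ ≤ LinearMap.ker Φ := by
    intro a ha
    rw [LinearMap.mem_ker] at ha ⊢
    have h1 : ∀ j i, a j • w i = 0 := fun j i => by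
      have := congrFun (congrFun ha j) i
      simpa [Θ] using this
    have h2 : Φ a = ∑ j, a j • v j := Fintype.linearCombination_apply A v a
    rw [h2]
    exact Finset.sum_eq_zero fun j _ => hann _ (hw _ (h1 j)) _
  have hsurj : Function.Surjective Φ := by
    rw [← LinearMap.range_eq_top]
    rw [Fintype.range_linearCombination, hv]
  let e := LinearMap.quotKerEquivRange Θ
  have : IsSemisimpleModule A ((Fin r → A) ⧸ LinearMap.ker Θ) :=
    IsSemisimpleModule.congr e
  let π : ((Fin r → A) ⧸ LinearMap.ker Θ) →ₗ[A] V := (LinearMap.ker Θ).liftQ Φ hker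
  have hπ : Function.Surjective π := fun y => by
    obtain ⟨a, ha⟩ := hsurj y
    exact ⟨Submodule.Quotient.mk a, by simpa [π] using ha⟩
  obtain ⟨s, hs⟩ : ∃ s : V →ₗ[A] ((Fin r → A) ⧸ LinearMap.ker Θ), π ∘ₗ s = LinearMap.id :=
    IsSemisimpleModule.lifting_property π hπ LinearMap.id
  obtain ⟨x, hx⟩ := hV
  have hsx : s x ≠ 0 := fun h => hx (by
    have := LinearMap.congr_fun hs x
    simpa [h] using this.symm)
  have hes : (e (s x) : Fin r → Fin m → W) ≠ 0 := fun h => hsx (by
    have : e (s x) = 0 := Subtype.ext h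
    simpa using this)
  obtain ⟨j, hj⟩ := Function.ne_iff.mp hes
  obtain ⟨i, hi⟩ := Function.ne_iff.mp hj
  refine ⟨(LinearMap.proj i).comp ((LinearMap.proj j).comp
    ((LinearMap.range Θ).subtype.comp (e.toLinearMap.comp s))), fun h => hi ?_⟩
  have := LinearMap.congr_fun h x
  simpa using this

end Pool.Agent.J4.H13.CC
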