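import Pool.Agent.J4.H13.CC.Abs
import Pool.Agent.J4.H13.CC.Alg

/-!
# Elements of the group ring which kill a semisimple representation
-/

set_option autoImplicit false

namespace Pool.Agent.J4.H13.CC

open Pool.Agent.J4.H9.HM

section

variable {K : Type} [Field K] {Γ : Type} [Group Γ]

/-- the action of an element of the group ring -/
noncomputable def actF (V : GRep K Γ) (c : Γ →₀ K) (x : V.W) : V.W :=
  ∑ g ∈ c.support, c g • V.act g x

/-- If no nonzero equivariant map `V → W` exists, `W` semisimple, then some element of the group ring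
kills `W` and not `V`. -/
theorem exists_kill {V W : GRep K Γ} (hW : Semisimple W) (hV : ∃ x : V.W, x ≠ 0)
    (h : ¬ Occurs V W) :
    ∃ c : Γ →₀ K, (∀ y : W.W, actF W c y = 0) ∧ ∃ x : V.W, actF V c x ≠ 0 := by
  classical
  by_contra hcon
  push Not at hcon
  let θV : MonoidAlgebra K Γ →ₐ[K] Module.End K V.W := MonoidAlgebra.lift K _ Γ V.ρ
  let θW : MonoidAlgebra K Γ →ₐ[K] Module.End K W.W := MonoidAlgebra.lift K _ Γ W.ρ
  let mV : Module (MonoidAlgebra K Γ) V.W := Module.compHom V.W θV.toRingHom
  let mW : Module (MonoidAlgebra K Γ) W.W := Module.compHom W.W θW.toRingHom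
  have smulV : ∀ (a : MonoidAlgebra K Γ) (x : V.W), a • x = θV a x := fun _ _ => rfl
  have smulW : ∀ (a : MonoidAlgebra K Γ) (x : W.W), a • x = θW a x := fun _ _ => rfl
  have actV : ∀ (a : MonoidAlgebra K Γ) (x : V.W), a • x = actF V a.coeff x := fun a x => by
    rw [smulV]
    simp only [θV, MonoidAlgebra.lift_apply, Finsupp.sum, LinearMap.sum_apply,
      LinearMap.smul_apply]
    rfl
  have actW : ∀ (a : MonoidAlgebra K Γ) (x : W.W), a • x = actF W a.coeff x := fun a x => by
    rw [smulW]
    simp only [θW, MonoidAlgebra.lift_apply, Finsupp.sum, LinearMap.sum_apply,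
      LinearMap.smul_apply]
    rfl
  have scV : ∀ (r : K) (x : V.W), algebraMap K (MonoidAlgebra K Γ) r • x = r • x := fun r x => by
    rw [smulV, AlgHom.commutes]
    rfl
  have scW : ∀ (r : K) (x : W.W), algebraMap K (MonoidAlgebra K Γ) r • x = r • x := fun r x => by
    rw [smulW, AlgHom.commutes]
    rfl
  have ofV : ∀ (g : Γ) (x : V.W), MonoidAlgebra.of K Γ g • x = V.act g x := fun g x => by
    rw [smulV]
    simp only [θV, MonoidAlgebra.lift_of]
    rfl
  have ofW : ∀ (g : Γ) (x : W.W), MonoidAlgebra.of K Γ g • x = W.act g x := fun g x => by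
    rw [smulW]
    simp only [θW, MonoidAlgebra.lift_of]
    rfl
  have : IsSemisimpleModule (MonoidAlgebra K Γ) W.W := by
    refine (isSemisimpleModule_iff _ _).2 ⟨fun P => ?_⟩
    let P' : Submodule K W.W :=
      { carrier := P
        add_mem' := fun ha hb => P.add_mem ha hb
        zero_mem' := P.zero_mem
        smul_mem' := fun r x hx => by
          rw [← scW]
          exact P.smul_mem _ hx }
    obtain ⟨Q, hQ, hPQ⟩ := hW P' fun g x hx => by
      rw [← ofW]
      exact P.smul_mem _ hx
    let Q' : Submodule (MonoidAlgebra K Γ) W.W :=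
      { carrier := Q
        add_mem' := fun ha hb => Q.add_mem ha hb
        zero_mem' := Q.zero_mem
        smul_mem' := fun a x hx => by
          rw [actW]
          exact Q.sum_mem fun g _ => Q.smul_mem _ (hQ g x hx) }
    refine ⟨Q', ?_, ?_⟩
    · rw [Submodule.disjoint_def]
      intro x hx hx'
      exact (Submodule.disjoint_def.1 hPQ.disjoint) x hx hx'
    · rw [codisjoint_iff, eq_top_iff]
      intro x _
      have hx : x ∈ P' ⊔ Q := by rw [codisjoint_iff.1 hPQ.codisjoint]; trivial
      obtain ⟨y, hy, z, hz, rfl⟩ := Submodule.mem_sup.1 hx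
      exact Submodule.mem_sup.2 ⟨y, hy, z, hz, rfl⟩
  let bW := Module.finBasis K W.W
  let bV := Module.finBasis K V.W
  have hker : ∀ a : MonoidAlgebra K Γ, (∀ i, a • bW i = 0) → ∀ x : W.W, a • x = 0 := by
    intro a ha x
    have h1 : θW a = 0 := bW.ext fun i => ha i
    rw [smulW, h1]
    rfl
  have hspan : Submodule.span (MonoidAlgebra K Γ) (Set.range bV) = ⊤ := by
    rw [eq_top_iff]
    intro x _
    have hx : x ∈ Submodule.span K (Set.range bV) := by rw [bV.span_eq]; trivial
    induction hx using Submodule.span_induction with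
    | mem y hy => exact Submodule.subset_span hy
    | zero => exact Submodule.zero_mem _
    | add y z _ _ hy hz => exact Submodule.add_mem _ (hy trivial) (hz trivial)
    | smul r y _ hy =>
      rw [← scV]
      exact Submodule.smul_mem _ _ (hy trivial)
  obtain ⟨f, hf⟩ := exists_hom (A := MonoidAlgebra K Γ) bW hker bV hspan hV fun a ha y => by
    rw [actV]
    exact hcon a.coeff (fun z => by rw [← actW]; exact ha z) y
  refine h ⟨{ toFun := f, map_add' := f.map_add, map_smul' := fun r x => ?_ }, fun h0 => hf ?_,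
    fun g x => ?_⟩
  · rw [← scV, f.map_smul, scW]
    rfl
  · exact LinearMap.ext fun x => LinearMap.congr_fun h0 x
  · show f (V.act g x) = W.act g (f x)
    rw [← ofV, f.map_smul, ofW]

end

end Pool.Agent.J4.H13.CC
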