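import Pool.Agent.J4.H9.HM.Defs

/-!
# Newforms whose representations occur in abelian varieties modulo powers of `ℓ`: definitions
-/

set_option autoImplicit false

namespace Pool.Agent.J4.H13.CC

open Pool.Agent.J4.H9.HM

variable {ℓ : ℕ} [Fact ℓ.Prime]

/-- The `ℓ`-adic absolute value on the algebraic closure of `ℚ_ℓ`. -/
noncomputable def absv (x : Qlb ℓ) : ℝ := norm (E := PadicAlgCl ℓ) x

/-- The number `x` is integral. -/
def IsInt (x : Qlb ℓ) : Prop := absv x ≤ 1

/-- A lattice in the representation `R`: the set of the vectors with integral coordinates with respect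
to some basis; it is required that the elements of the group map it to itself. -/
structure Lattice {Γ : Type} [Group Γ] (R : GRep (Qlb ℓ) Γ) where
  I : Type
  b : Module.Basis I (Qlb ℓ) R.W
  stable : ∀ g x, (∀ i, IsInt (b.repr x i)) → ∀ i, IsInt (b.repr (R.act g x) i)

/-- The vector `x` lies in the lattice `L`. -/
def Lattice.Mem {Γ : Type} [Group Γ] {R : GRep (Qlb ℓ) Γ} (L : Lattice R) (x : R.W) : Prop :=
  ∀ i, IsInt (L.b.repr x i)

/-- The vector `x` lies in `ℓ ^ n L`. -/
def Lattice.MemPow {Γ : Type} [Group Γ] {R : GRep (Qlb ℓ) Γ} (L : Lattice R) (n : ℕ)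
    (x : R.W) : Prop := ∃ y, L.Mem y ∧ x = (ℓ : Qlb ℓ) ^ n • y

/-- The lattice `L` as a lattice in the restriction of the representation to an extension field. -/
noncomputable def Lattice.restrict {k k' : NField} (h : k.F ≤ k'.F) {R : LRep ℓ k} (L : Lattice R) :
    Lattice (res h R) where
  I := L.I
  b := L.b
  stable := fun g x hx => L.stable (NField.incl h g) x hx

/-- For some lattice `L'` in the representation `V`, the representation `L / ℓ ^ n L` is isomorphic to a
subrepresentation of `L' / ℓ ^ n L'`: a linear map `φ` maps `L` to `L'`, commutes with the elements of the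
group modulo `ℓ ^ n`, and is injective modulo `ℓ ^ n`. -/
def EmbedsModulo {Γ : Type} [Group Γ] {R : GRep (Qlb ℓ) Γ} (L : Lattice R) (n : ℕ)
    (V : GRep (Qlb ℓ) Γ) : Prop :=
  ∃ (L' : Lattice V) (φ : R.W →ₗ[Qlb ℓ] V.W), (∀ x, L.Mem x → L'.Mem (φ x)) ∧
    (∀ g x, L.Mem x → L'.MemPow n (φ (R.act g x) - V.act g (φ x))) ∧
    ∀ x, L.Mem x → L'.MemPow n (φ x) → L.MemPow n x

/-- Every subrepresentation has a complement. -/
def Semisimple {K : Type} [Field K] {Γ : Type} [Group Γ] (V : GRep K Γ) : Prop :=
  ∀ P : Submodule K V.W, (∀ g, ∀ x ∈ P, V.act g x ∈ P) →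
    ∃ Q : Submodule K V.W, (∀ g, ∀ x ∈ Q, V.act g x ∈ Q) ∧ IsCompl P Q

/-- The prime numbers which are ramified in the number field `k`. -/
def ramified (k : NField) : Set ℕ :=
  haveI := k.fin
  haveI : NumberField k.F := ⟨⟩
  {p | p.Prime ∧ (p : ℤ) ∣ NumberField.discr k.F}

/-- The prime numbers under the places of bad reduction of an abelian variety. -/
structure Reductions (𝒜 : AbVars ℓ) where
  bad : ∀ {k : NField}, 𝒜.AV k → Set ℕ

/-- The number field `k` has degree at most `D` and all its ramified primes are in `S`. -/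
def FieldBound (D : ℕ) (S : Finset ℕ) (k : NField) : Prop :=
  Module.finrank ℚ k.F ≤ D ∧ ramified k ⊆ S

/-- The abelian variety `A` has dimension at most `d` and good reduction outside the places above the
prime numbers in `S`. -/
def VarBound {𝒜 : AbVars ℓ} (ℛ : Reductions 𝒜) (d : ℕ) (S : Finset ℕ) {k : NField}
    (A : 𝒜.AV k) : Prop := 𝒜.dim A ≤ d ∧ ℛ.bad A ⊆ S

/-- **Hermite, Minkowski**: there are only finitely many number fields of bounded degree with given
ramified primes. -/
def HermiteMinkowski : Prop := ∀ (D : ℕ) (S : Finset ℕ), {k : NField | FieldBound D S k}.Finite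

/-- **Faltings** (the conjecture of Shafarevich): there are only finitely many isogeny classes of abelian
varieties over `k` of bounded dimension with good reduction outside a given finite set of places. -/
def Shafarevich {𝒜 : AbVars ℓ} (ℛ : Reductions 𝒜) : Prop :=
  ∀ (k : NField) (d : ℕ) (S : Finset ℕ), ∃ (I : Type) (_ : Finite I) (B : I → 𝒜.AV k),
    ∀ A : 𝒜.AV k, VarBound ℛ d S A → ∃ i, Isom (𝒜.V A) (𝒜.V (B i))

/-- The theorems of Hermite, Minkowski and Faltings: finiteness, and the semisimplicity of the Tate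
modules. -/
structure Reductions.IsKnown {𝒜 : AbVars ℓ} (ℛ : Reductions 𝒜) : Prop where
  hermite : HermiteMinkowski
  shafarevich : Shafarevich ℛ
  semisimple : ∀ (k : NField) (A : 𝒜.AV k), Semisimple (𝒜.V A)

/-- The prime numbers under the places which divide the level of `f`. -/
def levelPrimes {𝒩 : Newforms ℓ} {k : NField} (f : 𝒩.New k) : Set ℕ :=
  {p | p.Prime ∧ ∃ v : k.Pl, 𝒩.level f v ≠ 0 ∧ (p : k.O) ∈ v.asIdeal}

/-- Known facts: only finitely many primes divide the level of `f`; the representations of `f` contain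
lattices (they are continuous); and an abelian variety attached to `f` has good reduction outside the
level (Carayol, Serre, Tate). -/
structure LevelKnown {𝒜 : AbVars ℓ} (ℛ : Reductions 𝒜) {𝒩 : Newforms ℓ} {k : NField}
    (f : 𝒩.New k) : Prop where
  finite : (levelPrimes f).Finite
  lattice : ∀ τ, Nonempty (Lattice (𝒩.ρ f τ))
  good : ∀ A : 𝒜.AV k, Attached 𝒜 𝒩 f A → ℛ.bad A ⊆ levelPrimes f

/-- The representation `L / ℓ ^ n L` occurs in an abelian variety with the bounds `D`, `d`, `S`: over a
finite extension `k'` of `k` of degree at most `D` over `ℚ`, unramified outside `S`, it embeds into an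
abelian variety `A` over `k'` of dimension at most `d` with good reduction outside `S`. -/
def OccursModulo {𝒜 : AbVars ℓ} (ℛ : Reductions 𝒜) {k : NField} {R : LRep ℓ k} (L : Lattice R)
    (D d : ℕ) (S : Finset ℕ) (n : ℕ) : Prop :=
  ∃ (k' : NField) (h : k.F ≤ k'.F) (A : 𝒜.AV k'), FieldBound D S k' ∧ VarBound ℛ d S A ∧
    EmbedsModulo (L.restrict h) n (𝒜.V A)

/-- For some bounds the representations `L / ℓ ^ n L` occur in abelian varieties for infinitely
many `n`. -/
def OccursBoundedly {𝒜 : AbVars ℓ} (ℛ : Reductions 𝒜) {k : NField} {R : LRep ℓ k}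
    (L : Lattice R) : Prop :=
  ∃ (D d : ℕ) (S : Finset ℕ), ∀ N : ℕ, ∃ n ≥ N, OccursModulo ℛ L D d S n

/-- The representation `L / ℓ ^ n L` embeds into an abelian variety over `k` of dimension `[M : ℚ]`, where
`M` is the field of `f`, with good reduction outside the level of `f`. -/
def OccursAt {𝒜 : AbVars ℓ} (ℛ : Reductions 𝒜) {𝒩 : Newforms ℓ} {k : NField}
    (f : 𝒩.New k) {τ : 𝒩.M f →+* Qlb ℓ} (L : Lattice (𝒩.ρ f τ)) (n : ℕ) : Prop :=
  ∃ A : 𝒜.AV k, 𝒜.dim A = Module.finrank ℚ (𝒩.M f) ∧ ℛ.bad A ⊆ levelPrimes f ∧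
    EmbedsModulo L n (𝒜.V A)

/-- The smallest case of Q1 in terms of congruences: let `k` be a totally real field of even degree which
contains `L` and `f` a newform of level one over `k` which is not commensurable with any newform covered
by the theorem of Zhang; then for some lattice in one of the representations of `f` the representations
modulo `ℓ ^ n` occur in abelian varieties with common bounds for infinitely many `n`. -/
def RemainingCongruences {𝒜 : AbVars ℓ} (ℛ : Reductions 𝒜) (𝒩 : Newforms ℓ) (L : NField) :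
    Prop :=
  ∀ k : NField, k.IsTotReal → L.F ≤ k.F → Even (Module.finrank ℚ k.F) → ∀ f : 𝒩.New k,
    (∀ v, 𝒩.level f v = 0) →
    (∀ k₂ : NField, k₂.IsTotReal → ∀ g : 𝒩.New k₂, Commensurable 𝒩 f g → ¬ IsZhang 𝒩 g) →
    ∃ (τ : 𝒩.M f →+* Qlb ℓ) (Λ : Lattice (𝒩.ρ f τ)), OccursBoundedly ℛ Λ

end Pool.Agent.J4.H13.CC
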