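import Pool.Agent.J4.H13.CC.Sum

/-!
# Newforms whose representations occur in abelian varieties modulo powers of `ℓ`
-/

set_option autoImplicit false

namespace Pool.Agent.J4.H13.CC

open Pool.Agent.J4.H9.HM Filter

variable {ℓ : ℕ} [Fact ℓ.Prime]

theorem no_embedding {Γ : Type} [Group Γ] {R V : GRep (Qlb ℓ) Γ} (L : Lattice R)
    (hV : Semisimple V) (hR : ∃ x : R.W, x ≠ 0) (h : ¬ Occurs R V) :
    ∀ᶠ n in atTop, ∀ V' : GRep (Qlb ℓ) Γ, Isom V' V → ¬ EmbedsModulo L n V' := by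
  classical
  obtain ⟨c, hcV, x, hx⟩ := exists_kill hV hR h
  have hs : c.support.Nonempty := by
    rw [Finsupp.support_nonempty_iff]
    rintro rfl
    exact hx rfl
  obtain ⟨g₀, hg₀, hmax⟩ := Finset.exists_max_image _ (fun g => absv (c g)) hs
  have hc0 : c g₀ ≠ 0 := Finsupp.mem_support_iff.1 hg₀
  let s : Qlb ℓ := (c g₀)⁻¹
  have hs0 : s ≠ 0 := inv_ne_zero hc0
  have hint : ∀ g ∈ c.support, IsInt (s * c g) := fun g hg => by
    show absv _ ≤ 1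
    have h1 : absv (c g₀) * absv (s * c g) = absv (c g) := by
      rw [← absv_mul, mul_inv_cancel_left₀ hc0]
    have h2 := hmax g hg
    rw [← h1] at h2
    exact le_of_mul_le_mul_left (by rw [mul_one]; exact h2) (absv_pos hc0)
  obtain ⟨t, ht, hmem⟩ := exists_mem L x
  let z : R.W := ∑ g ∈ c.support, (s * c g) • R.act g (t • x)
  have hz : z ≠ 0 := by
    have h1 : z = (s * t) • actF R c x := by
      show ∑ g ∈ c.support, (s * c g) • R.act g (t • x) = (s * t) • ∑ g ∈ c.support, _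
      rw [Finset.smul_sum]
      refine Finset.sum_congr rfl fun g _ => ?_
      rw [map_smul, smul_smul, smul_smul]
      congr 1
      ring
    rw [h1]
    exact smul_ne_zero (mul_ne_zero hs0 ht) hx
  obtain ⟨i, hi⟩ : ∃ i, L.b.repr z i ≠ 0 := by
    by_contra hcon
    push Not at hcon
    apply hz
    have h1 : L.b.repr z = 0 := Finsupp.ext hcon
    simpa using h1
  have hlim : Tendsto (fun n : ℕ => absv (ℓ : Qlb ℓ) ^ n) atTop (nhds 0) :=
    tendsto_pow_atTop_nhds_zero_of_lt_one (absv_nonneg _) ell_lt_one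
  filter_upwards [hlim.eventually_lt_const (absv_pos hi)] with n hn V' hV' hemb
  obtain ⟨L', φ, -, h2, h3⟩ := hemb
  obtain ⟨ψ, hψ⟩ := isom_iff.1 hV'
  have hkill : ∀ y : V'.W, ∑ g ∈ c.support, (s * c g) • V'.act g y = 0 := fun y => by
    apply ψ.injective
    rw [map_sum, map_zero]
    have h1 : ∑ g ∈ c.support, ψ ((s * c g) • V'.act g y) = s • actF V c (ψ y) := by
      show _ = s • ∑ g ∈ c.support, c g • V.act g (ψ y)
      rw [Finset.smul_sum]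
      refine Finset.sum_congr rfl fun g _ => ?_
      rw [map_smul, smul_smul]
      congr 1
      exact hψ g y
    rw [h1, hcV, smul_zero]
  have hzL : L.Mem z := by
    rw [mem_iff_memPow]
    refine memPow_sum L _ 0 _ _ hint fun g _ => ?_
    rw [← mem_iff_memPow]
    exact L.stable g _ hmem
  have hφz : L'.MemPow n (φ z) := by
    have h1 : φ z = ∑ g ∈ c.support, (s * c g) •
        (φ (R.act g (t • x)) - V'.act g (φ (t • x))) := by
      show φ (∑ g ∈ c.support, (s * c g) • R.act g (t • x)) = _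
      rw [map_sum]
      simp only [smul_sub, Finset.sum_sub_distrib]
      rw [hkill, sub_zero]
      exact Finset.sum_congr rfl fun g _ => map_smul _ _ _
    rw [h1]
    exact memPow_sum L' _ n _ _ hint fun g _ => h2 g _ hmem
  exact absurd ((memPow_iff L n z).1 (h3 z hzL hφz) i) (not_le.2 hn)

variable {𝒜 : AbVars ℓ} {ℛ : Reductions 𝒜} {𝒩 : Newforms ℓ}

theorem finite_level (hℛ : ℛ.IsKnown) {k : NField} {R : LRep ℓ k} (hR : ∃ x : R.W, x ≠ 0)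
    (L : Lattice R) (D d : ℕ) (S : Finset ℕ) :
    ∀ᶠ n in atTop, ∀ (k' : NField) (h : k.F ≤ k'.F) (A : 𝒜.AV k'), FieldBound D S k' →
      VarBound ℛ d S A → EmbedsModulo (L.restrict h) n (𝒜.V A) →
        Occurs (res h R) (𝒜.V A) := by
  have h1 : ∀ᶠ n in atTop, ∀ k' ∈ {k' : NField | FieldBound D S k'}, ∀ (h : k.F ≤ k'.F)
      (A : 𝒜.AV k'), VarBound ℛ d S A → EmbedsModulo (L.restrict h) n (𝒜.V A) →
        Occurs (res h R) (𝒜.V A) := by
    refine (Filter.eventually_all_finite (hℛ.hermite D S)).2 fun k' _ => ?_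
    by_cases h : k.F ≤ k'.F
    swap
    · exact Eventually.of_forall fun n h' => absurd h' h
    obtain ⟨I, _, B, hB⟩ := hℛ.shafarevich k' d S
    have h2 : ∀ᶠ n in atTop, ∀ i, ∀ A : 𝒜.AV k', Isom (𝒜.V A) (𝒜.V (B i)) →
        EmbedsModulo (L.restrict h) n (𝒜.V A) → Occurs (res h R) (𝒜.V A) := by
      refine Filter.eventually_all.2 fun i => ?_
      by_cases hocc : Occurs (res h R) (𝒜.V (B i))
      · exact Eventually.of_forall fun n A hA _ => occurs_right hocc hA.symm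
      · filter_upwards [no_embedding (L.restrict h) (hℛ.semisimple k' (B i)) hR hocc]
          with n hn A hA hemb
        exact absurd hemb (hn _ hA)
    filter_upwards [h2] with n hn _ A hA hemb
    obtain ⟨i, hi⟩ := hB A hA
    exact hn i A hi hemb
  filter_upwards [h1] with n hn k' h A hk' hA hemb
  exact hn k' hk' h A hA hemb

theorem strictly_of (hA : 𝒜.IsKnown) {k : NField} (hk : k.IsTotReal) {f : 𝒩.New k}
    (hf : 𝒩.IsKnown 𝒜 f) (hL : LevelKnown ℛ f) {τ : 𝒩.M f →+* Qlb ℓ}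
    (Λ : Lattice (𝒩.ρ f τ)) (h : HasAV 𝒜 𝒩 f) : ∀ n, OccursAt ℛ f Λ n := by
  classical
  obtain ⟨A, hAtt, hdim, -⟩ := ((pointwise hA hk hf).out 0 1).1 h
  have : CharZero (Qlb ℓ) := (inferInstance : CharZero (PadicAlgCl ℓ))
  let M : ∀ σ, Lattice (𝒩.ρ f σ) := Function.update (fun σ => (hL.lattice σ).some) τ Λ
  have hM : M τ = Λ := Function.update_self _ _ _
  exact fun n => ⟨A, hdim, hL.good A hAtt, hM ▸ sum_embeds hAtt.2 M τ n⟩

theorem ramified_finite (k : NField) : (ramified k).Finite := by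
  have := k.fin
  have : NumberField k.F := ⟨⟩
  have h0 : (NumberField.discr k.F).natAbs ≠ 0 :=
    Int.natAbs_ne_zero.2 (NumberField.discr_ne_zero k.F)
  refine (Set.finite_Iic (NumberField.discr k.F).natAbs).subset fun p hp => ?_
  have h1 : (p : ℤ) ∣ NumberField.discr k.F := hp.2
  exact Nat.le_of_dvd (Nat.pos_of_ne_zero h0) (Int.natCast_dvd.1 h1)

theorem exists_bounds {k : NField} {f : 𝒩.New k} (hL : LevelKnown ℛ f)
    {τ : 𝒩.M f →+* Qlb ℓ} (Λ : Lattice (𝒩.ρ f τ)) :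
    ∃ (D d : ℕ) (S : Finset ℕ), ∀ n, OccursAt ℛ f Λ n → OccursModulo ℛ Λ D d S n := by
  classical
  refine ⟨Module.finrank ℚ k.F, Module.finrank ℚ (𝒩.M f),
    hL.finite.toFinset ∪ (ramified_finite k).toFinset, fun n ⟨A, h1, h2, h3⟩ => ?_⟩
  refine ⟨k, le_refl _, A, ⟨le_rfl, ?_⟩, ⟨h1.le, ?_⟩, h3⟩
  · intro p hp
    simp only [Finset.coe_union, Set.Finite.coe_toFinset]
    exact Or.inr hp
  · intro p hp
    simp only [Finset.coe_union, Set.Finite.coe_toFinset]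
    exact Or.inl (h2 hp)

theorem has_of_modulo (hA : 𝒜.IsKnown) (hℛ : ℛ.IsKnown) {k : NField} (hk : k.IsTotReal)
    {f : 𝒩.New k} (hf : 𝒩.IsKnown 𝒜 f) {τ : 𝒩.M f →+* Qlb ℓ} (Λ : Lattice (𝒩.ρ f τ))
    (D d : ℕ) (S : Finset ℕ) :
    ∃ n₀, ∀ n ≥ n₀, OccursModulo ℛ Λ D d S n → HasAV 𝒜 𝒩 f := by
  obtain ⟨n₀, hn₀⟩ := eventually_atTop.1 (finite_level hℛ (hf.irr τ).1 Λ D d S)
  exact ⟨n₀, fun n hn ⟨k', h, A, h1, h2, h3⟩ =>
    (attached_iff hA hk hf).2 ⟨τ, k', h, A, hn₀ n hn k' h A h1 h2 h3⟩⟩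

theorem one_level (hA : 𝒜.IsKnown) (hℛ : ℛ.IsKnown) {k : NField} (hk : k.IsTotReal)
    {f : 𝒩.New k} (hf : 𝒩.IsKnown 𝒜 f) (hL : LevelKnown ℛ f) {τ : 𝒩.M f →+* Qlb ℓ}
    (Λ : Lattice (𝒩.ρ f τ)) : ∃ n₀, ∀ n ≥ n₀, (HasAV 𝒜 𝒩 f ↔ OccursAt ℛ f Λ n) := by
  obtain ⟨D, d, S, h⟩ := exists_bounds hL Λ
  obtain ⟨n₀, hn₀⟩ := has_of_modulo hA hℛ hk hf Λ D d S
  exact ⟨n₀, fun n hn => ⟨fun h' => strictly_of hA hk hf hL Λ h' n, fun h' => hn₀ n hn (h n h')⟩⟩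

theorem tfae (hA : 𝒜.IsKnown) (hℛ : ℛ.IsKnown) {k : NField} (hk : k.IsTotReal)
    {f : 𝒩.New k} (hf : 𝒩.IsKnown 𝒜 f) (hL : LevelKnown ℛ f) {τ : 𝒩.M f →+* Qlb ℓ}
    (Λ : Lattice (𝒩.ρ f τ)) :
    List.TFAE [HasAV 𝒜 𝒩 f, OccursBoundedly ℛ Λ, ∀ n, OccursAt ℛ f Λ n] := by
  tfae_have 1 → 3 := strictly_of hA hk hf hL Λ
  tfae_have 3 → 2 := fun h => by
    obtain ⟨D, d, S, h'⟩ := exists_bounds hL Λ
    exact ⟨D, d, S, fun N => ⟨N, le_rfl, h' N (h N)⟩⟩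
  tfae_have 2 → 1 := fun ⟨D, d, S, h⟩ => by
    obtain ⟨n₀, hn₀⟩ := has_of_modulo hA hℛ hk hf Λ D d S
    obtain ⟨n, hn, h⟩ := h n₀
    exact hn₀ n hn h
  tfae_finish

theorem q1_iff (hA : 𝒜.IsKnown) (hℛ : ℛ.IsKnown)
    (hN : ∀ k : NField, k.IsTotReal → ∀ f : 𝒩.New k, 𝒩.IsKnown 𝒜 f)
    (hL : ∀ k : NField, k.IsTotReal → ∀ f : 𝒩.New k, LevelKnown ℛ f)
    (hb : HasBaseChange 𝒩) (hZ : ZhangTheorem 𝒜 𝒩) {L : NField} (hLr : L.IsTotReal) :
    Q1 𝒜 𝒩 ↔ RemainingCongruences ℛ 𝒩 L := by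
  have h := main hA hN hb hZ hLr
  constructor
  · intro h1 k hk _ heven f hlev _
    have h2 : AllNewforms 𝒜 𝒩 := (h.out 0 1).2 h1
    obtain ⟨τ⟩ := exists_emb f
    obtain ⟨Λ⟩ := (hL k hk f).lattice τ
    exact ⟨τ, Λ, ((tfae hA hℛ hk (hN k hk f) (hL k hk f) Λ).out 0 1).1 (h2 k hk f)⟩
  · intro h1
    refine (h.out 1 3).2 fun k hk hLk heven f hlev hcom => ?_
    obtain ⟨τ, Λ, h2⟩ := h1 k hk hLk heven f hlev hcom
    exact (attached_iff hA hk (hN k hk f)).1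
      (((tfae hA hℛ hk (hN k hk f) (hL k hk f) Λ).out 0 1).2 h2)

end Pool.Agent.J4.H13.CC
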