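import Pool.Agent.J4.H13.CC.Core
import Pool.Agent.J4.H9.HM.Main

/-!
# Lattices in a direct sum of representations
-/

set_option autoImplicit false

namespace Pool.Agent.J4.H13.CC

open Pool.Agent.J4.H9.HM

variable {ℓ : ℕ} [Fact ℓ.Prime]

section

variable {Γ : Type} [Group Γ] {V : GRep (Qlb ℓ) Γ} {I : Type} [Fintype I]
    {R : I → GRep (Qlb ℓ) Γ}

/-- the basis of the sum -/
noncomputable def sumBasis (e : V.W ≃ₗ[Qlb ℓ] ∀ i, (R i).W) (M : ∀ i, Lattice (R i)) :
    Module.Basis (Σ i, (M i).I) (Qlb ℓ) V.W :=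
  (Pi.basis fun i => (M i).b).map e.symm

theorem sumBasis_repr (e : V.W ≃ₗ[Qlb ℓ] ∀ i, (R i).W) (M : ∀ i, Lattice (R i)) (x : V.W)
    (i : I) (l : (M i).I) : (sumBasis e M).repr x ⟨i, l⟩ = (M i).b.repr (e x i) l := by
  rw [sumBasis, Module.Basis.map_repr]
  have h1 : (e.symm.symm ≪≫ₗ (Pi.basis fun i => (M i).b).repr) x =
    (Pi.basis fun i => (M i).b).repr (e x) := rfl
  rw [h1, Pi.basis_repr]

/-- the lattice in the sum -/
noncomputable def sumLattice (e : V.W ≃ₗ[Qlb ℓ] ∀ i, (R i).W)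
    (he : ∀ g x i, e (V.act g x) i = (R i).act g (e x i)) (M : ∀ i, Lattice (R i)) :
    Lattice V where
  I := Σ i, (M i).I
  b := sumBasis e M
  stable := fun g x hx ⟨i, l⟩ => by
    rw [sumBasis_repr, he]
    exact (M i).stable g _ (fun l => by
      have h1 := hx ⟨i, l⟩
      rw [sumBasis_repr] at h1
      exact h1) l

theorem sumLattice_mem (e : V.W ≃ₗ[Qlb ℓ] ∀ i, (R i).W)
    (he : ∀ g x i, e (V.act g x) i = (R i).act g (e x i)) (M : ∀ i, Lattice (R i)) (x : V.W) :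
    (sumLattice e he M).Mem x ↔ ∀ i, (M i).Mem (e x i) := by
  constructor
  · intro h i l
    have h1 := h ⟨i, l⟩
    have h2 : IsInt ((sumBasis e M).repr x ⟨i, l⟩) := h1
    rw [sumBasis_repr] at h2
    exact h2
  · rintro h ⟨i, l⟩
    have h2 : IsInt ((sumBasis e M).repr x ⟨i, l⟩) := by
      rw [sumBasis_repr]
      exact h i l
    exact h2

theorem sumLattice_memPow (e : V.W ≃ₗ[Qlb ℓ] ∀ i, (R i).W)
    (he : ∀ g x i, e (V.act g x) i = (R i).act g (e x i)) (M : ∀ i, Lattice (R i)) (n : ℕ)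
    (x : V.W) : (sumLattice e he M).MemPow n x ↔ ∀ i, (M i).MemPow n (e x i) := by
  simp only [memPow_iff]
  constructor
  · intro h i l
    have h2 : absv ((sumBasis e M).repr x ⟨i, l⟩) ≤ absv (ℓ : Qlb ℓ) ^ n := h ⟨i, l⟩
    rw [sumBasis_repr] at h2
    exact h2
  · rintro h ⟨i, l⟩
    have h2 : absv ((sumBasis e M).repr x ⟨i, l⟩) ≤ absv (ℓ : Qlb ℓ) ^ n := by
      rw [sumBasis_repr]
      exact h i l
    exact h2

theorem zero_memPow {R : GRep (Qlb ℓ) Γ} (L : Lattice R) (n : ℕ) : L.MemPow n 0 := by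
  rw [memPow_iff]
  intro j
  rw [map_zero, Finsupp.zero_apply, absv_zero]
  exact pow_nonneg (absv_nonneg _) n

theorem embeds_of_equiv [DecidableEq I] (e : V.W ≃ₗ[Qlb ℓ] ∀ i, (R i).W)
    (he : ∀ g x i, e (V.act g x) i = (R i).act g (e x i)) (M : ∀ i, Lattice (R i)) (i : I)
    (n : ℕ) : EmbedsModulo (M i) n V := by
  let φ : (R i).W →ₗ[Qlb ℓ] V.W :=
    e.symm.toLinearMap ∘ₗ LinearMap.single (Qlb ℓ) (fun i => (R i).W) i
  have hφ : ∀ x, e (φ x) = LinearMap.single (Qlb ℓ) (fun i => (R i).W) i x := fun x =>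
    e.apply_symm_apply _
  have hs : ∀ x, e (φ x) i = x := fun x => by
    rw [hφ]
    exact Pi.single_eq_same (M := fun i => (R i).W) i x
  have hn : ∀ x j, j ≠ i → e (φ x) j = 0 := fun x j hj => by
    rw [hφ]
    exact Pi.single_eq_of_ne (M := fun i => (R i).W) hj x
  refine ⟨sumLattice e he M, φ, fun x hx => ?_, fun g x _ => ?_, fun x _ h => ?_⟩
  · rw [sumLattice_mem]
    intro j
    by_cases hij : j = i
    · subst hij
      rw [hs]
      exact hx
    · rw [hn x j hij, mem_iff_memPow]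
      exact zero_memPow _ _
  · have h1 : φ ((R i).act g x) - V.act g (φ x) = 0 := by
      rw [sub_eq_zero]
      apply e.injective
      funext j
      rw [he]
      by_cases hij : j = i
      · subst hij
        rw [hs, hs]
      · rw [hn _ j hij, hn _ j hij, map_zero]
    rw [h1]
    exact zero_memPow _ _
  · have h1 := (sumLattice_memPow e he M n (φ x)).1 h i
    rw [hs] at h1
    exact h1

theorem sum_embeds [DecidableEq I] (hs : IsSum V R) (M : ∀ i, Lattice (R i)) (i : I)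
    (n : ℕ) : EmbedsModulo (M i) n V := by
  obtain ⟨e, he⟩ := isSum_iff.1 hs
  exact embeds_of_equiv e (fun g x i => he g x i) M i n

end

end Pool.Agent.J4.H13.CC
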